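import Pool.Agent.Lib.MP_229293_co.Defs

/-!
# Star colorings of forests; rooted trees
-/

set_option autoImplicit false

open SimpleGraph

namespace Pool.Agent.Lib.MP_229293_co

variable {V : Type*}

/-- Star colorings of a forest. -/
theorem star_iff {G : SimpleGraph V} (hG : G.IsAcyclic) {k : ℕ} (c : V → Fin k) :
    IsStarColoring G c ↔ (∀ u v, G.Adj u v → c u ≠ c v) ∧
      ∀ a b d e, G.Adj a b → G.Adj b d → G.Adj d e → a ≠ d → b ≠ e →
        ¬ (c a = c d ∧ c b = c e) := by
  constructor
  · intro h
    refine ⟨h.proper, ?_⟩
    rintro a b d e hab hbd hde had hbe ⟨h1, h2⟩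
    have hij : c a ≠ c b := h.proper a b hab
    let S : Set V := {v | c v = c a ∨ c v = c b}
    have ha : a ∈ S := Or.inl rfl
    have hb : b ∈ S := Or.inr rfl
    have hd : d ∈ S := Or.inl h1.symm
    have he : e ∈ S := Or.inr h2.symm
    have hae : a ≠ e := by
      rintro rfl
      exact hij h2.symm
    let p : (G.induce S).Walk ⟨a, ha⟩ ⟨e, he⟩ :=
      Walk.cons (v := ⟨b, hb⟩) (by simpa using hab)
        (Walk.cons (v := ⟨d, hd⟩) (by simpa using hbd)
          (Walk.cons (by simpa using hde) Walk.nil))
    refine h.no_path (c a) (c b) hij ⟨a, ha⟩ ⟨e, he⟩ p ?_ rfl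
    simp only [p, Walk.cons_isPath_iff, Walk.support_cons, Walk.support_nil, List.mem_cons,
      Subtype.mk.injEq, List.not_mem_nil, or_false, not_or, Walk.IsPath.nil, true_and]
    exact ⟨⟨hde.ne, hbd.ne, hbe⟩, hab.ne, had, hae⟩
  · rintro ⟨h1, h2⟩
    refine ⟨h1, fun i j _ => hG.induce _, ?_⟩
    intro i j hij u v p hp hl
    cases p with
    | nil => simp at hl
    | @cons _ b _ h3 p =>
      cases p with
      | nil => simp at hl
      | @cons _ d _ h4 p =>
        cases p with
        | nil => simp at hl
        | @cons _ e _ h5 p =>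
          cases p with
          | cons h6 p => simp at hl
          | nil =>
            simp only [Walk.cons_isPath_iff, Walk.support_cons, Walk.support_nil, List.mem_cons,
              List.not_mem_nil, or_false, not_or, Walk.IsPath.nil, true_and] at hp
            have e1 : G.Adj u.1 b.1 := by simpa using h3
            have e2 : G.Adj b.1 d.1 := by simpa using h4
            have e3 : G.Adj d.1 v.1 := by simpa using h5
            have n1 := h1 _ _ e1
            have n2 := h1 _ _ e2
            have n3 := h1 _ _ e3
            have mu : c u.1 = i ∨ c u.1 = j := u.2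
            have mb : c b.1 = i ∨ c b.1 = j := b.2
            have md : c d.1 = i ∨ c d.1 = j := d.2
            have mv : c v.1 = i ∨ c v.1 = j := v.2
            refine h2 _ _ _ _ e1 e2 e3 (fun h => hp.2.2.1 (Subtype.ext h))
              (fun h => hp.1.2.2 (Subtype.ext h)) ⟨?_, ?_⟩
            · rcases mu with h | h <;> rcases mb with h' | h' <;> rcases md with h'' | h'' <;>
                simp_all
            · rcases mb with h | h <;> rcases md with h' | h' <;> rcases mv with h'' | h'' <;>
                simp_all

/-- In a tree a vertex has at most one neighbour nearer to the root. -/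
theorem near_unique {T : SimpleGraph V} (hT : T.IsTree) (r : V) {v u w : V} (hu : T.Adj u v)
    (hw : T.Adj w v) (h1 : T.dist r v = T.dist r u + 1) (h2 : T.dist r v = T.dist r w + 1) :
    u = w := by
  obtain ⟨p, hp⟩ := (hT.connected r u).exists_walk_length_eq_dist
  obtain ⟨q, hq⟩ := (hT.connected r w).exists_walk_length_eq_dist
  have hp' : (p.concat hu).IsPath := Walk.isPath_of_length_eq_dist _ (by simp [hp, h1])
  have hq' : (q.concat hw).IsPath := Walk.isPath_of_length_eq_dist _ (by simp [hq, h2])
  have := congrArg Subtype.val ((hT.isAcyclic.subsingleton_path r v).elim ⟨_, hp'⟩ ⟨_, hq'⟩)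
  exact (Walk.concat_inj this).1

/-- Two adjacent vertices: one of them is the parent of the other one. -/
theorem near_or {T : SimpleGraph V} (hT : T.IsTree) (r : V) {u v : V} (h : T.Adj u v) :
    T.dist r u = T.dist r v + 1 ∨ T.dist r v = T.dist r u + 1 :=
  hT.dist_eq_dist_add_one_of_adj r h

/-- Every vertex other than the root has a neighbour nearer to the root. -/
theorem exists_near {T : SimpleGraph V} (hT : T.IsTree) (r : V) {v : V} (h : v ≠ r) :
    ∃ u, T.Adj u v ∧ T.dist r v = T.dist r u + 1 := by
  obtain ⟨p, hp⟩ := (hT.connected v r).exists_walk_length_eq_dist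
  cases p with
  | nil => exact absurd rfl h
  | @cons _ u _ h1 p =>
    refine ⟨u, h1.symm, ?_⟩
    rcases near_or hT r h1 with h2 | h2
    · exact h2
    · exfalso
      have h3 := dist_le p
      rw [Walk.length_cons, dist_comm] at hp
      rw [dist_comm] at h3
      omega

theorem dist_one {T : SimpleGraph V} (r v : V) : T.dist r v = 1 ↔ T.Adj r v := dist_eq_one_iff_adj

end Pool.Agent.Lib.MP_229293_co
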