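import Mathlib

/-!
# Star colorings, star recoloring steps and the star b-chromatic number
-/

set_option autoImplicit false

namespace Pool.Agent.Lib.MP_229293_co

variable {V : Type*}

/-- `c` is a star coloring of `G`: it is proper, and for any two colors `i ≠ j` the subgraph of `G`
induced by the vertices of the colors `i` and `j` is a forest that contains no path on four
vertices. -/
structure IsStarColoring (G : SimpleGraph V) {k : ℕ} (c : V → Fin k) : Prop where
  proper : ∀ u v, G.Adj u v → c u ≠ c v
  forest : ∀ i j, i ≠ j → (G.induce {v | c v = i ∨ c v = j}).IsAcyclic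
  no_path : ∀ i j, i ≠ j → ∀ (u v : {v | c v = i ∨ c v = j})
    (p : (G.induce {v | c v = i ∨ c v = j}).Walk u v), p.IsPath → p.length ≠ 3

/-- `CN_c[v]`: the colors of `v` and its neighbours. -/
def CN (G : SimpleGraph V) {k : ℕ} (c : V → Fin k) (v : V) : Set (Fin k) :=
  {j | ∃ u, (u = v ∨ G.Adj v u) ∧ c u = j}

/-- `c'` arises from `c` by a star recoloring step: for some color `i` every vertex `v` of color `i`
is recolored with a color that is not in `CN_c[v]` (in particular it is not `i`), all other vertices
keep their colors, and the result is a star coloring. -/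
def Step (G : SimpleGraph V) {k : ℕ} (c c' : V → Fin k) : Prop :=
  ∃ i, (∀ v, c v ≠ i → c' v = c v) ∧ (∀ v, c v = i → c' v ∉ CN G c v) ∧ IsStarColoring G c'

/-- The numbers `k` of colors of the star colorings (with exactly `k` colors) which admit no star
recoloring step. -/
def minimalSizes (G : SimpleGraph V) : Set ℕ :=
  {k | ∃ c : V → Fin k, Function.Surjective c ∧ IsStarColoring G c ∧ ∀ c', ¬ Step G c c'}

/-- The star b-chromatic number `S_b(G)`. -/
noncomputable def starB (G : SimpleGraph V) : ℕ := sSup (minimalSizes G)

/-- The number of the neighbours of `r` which are not leaves. -/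
noncomputable def innerDegree (G : SimpleGraph V) (r : V) : ℕ :=
  Set.ncard {w | G.Adj r w ∧ ∃ x, G.Adj w x ∧ x ≠ r}

open Classical in
/-- `1` if some neighbour of `r` is a leaf, else `0`. -/
noncomputable def leafBit (G : SimpleGraph V) (r : V) : ℕ :=
  if ∃ w, G.Adj r w ∧ ∀ x, G.Adj w x → x = r then 1 else 0

end Pool.Agent.Lib.MP_229293_co
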