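import Pool.Agent.Lib.MP_229293_co.Upper

/-!
# Lower bound for all trees
-/

set_option autoImplicit false

open SimpleGraph

namespace Pool.Agent.Lib.MP_229293_co

variable {V : Type*}

/-! ### Existence of minimal star colorings -/

theorem star_relabel {T : SimpleGraph V} (hT : T.IsAcyclic) {k m : ℕ} (c : V → Fin k)
    (c2 : V → Fin m) (h : ∀ u v, c2 u = c2 v ↔ c u = c v) (hc : IsStarColoring T c) :
    IsStarColoring T c2 := by
  rw [star_iff hT] at hc ⊢
  refine ⟨fun u v huv h' => hc.1 u v huv ((h u v).1 h'), ?_⟩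
  rintro a b d e hab hbd hde had hbe ⟨h1, h2⟩
  exact hc.2 a b d e hab hbd hde had hbe ⟨(h _ _).1 h1, (h _ _).1 h2⟩

theorem star_drop {T : SimpleGraph V} (hT : T.IsAcyclic) {k : ℕ} (c : V → Fin (k + 1))
    (i : Fin (k + 1)) (hi : ∀ v, c v ≠ i) (hc : IsStarColoring T c) :
    ∃ c2 : V → Fin k, IsStarColoring T c2 := by
  refine ⟨fun v => (finSuccAboveEquiv i).symm ⟨c v, hi v⟩, star_relabel hT c _ ?_ hc⟩
  intro u v
  rw [(finSuccAboveEquiv i).symm.injective.eq_iff, Subtype.mk.injEq]

theorem step_ne {T : SimpleGraph V} {k : ℕ} {c c' : V → Fin k} {i : Fin k}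
    (h1 : ∀ v, c v ≠ i → c' v = c v) (h2 : ∀ v, c v = i → c' v ∉ CN T c v) (v : V) :
    c' v ≠ i := by
  by_cases hv : c v = i
  · intro h
    exact h2 v hv ⟨v, Or.inl rfl, hv.trans h.symm⟩
  · rw [h1 v hv]
    exact hv

theorem exists_minimal [Finite V] {T : SimpleGraph V} (hT : T.IsAcyclic) :
    ∃ k ∈ minimalSizes T, (Nonempty V → 1 ≤ k) ∧ ((∃ u v, T.Adj u v) → 2 ≤ k) := by
  classical
  have hex : ∃ k, ∃ c : V → Fin k, IsStarColoring T c := by
    obtain ⟨n, ⟨f⟩⟩ := Finite.exists_equiv_fin V
    refine ⟨n, f, ?_⟩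
    rw [star_iff hT]
    refine ⟨fun u v huv h => huv.ne (f.injective h), ?_⟩
    rintro a b d e - - - had - ⟨h1, -⟩
    exact had (f.injective h1)
  obtain ⟨k, ⟨c, hc⟩, hmin⟩ : ∃ k, (∃ c : V → Fin k, IsStarColoring T c) ∧
      ∀ m < k, ¬ ∃ c : V → Fin m, IsStarColoring T c :=
    ⟨Nat.find hex, Nat.find_spec hex, fun m hm => Nat.find_min hex hm⟩
  have hdrop : ∀ (c2 : V → Fin k) (i : Fin k), (∀ v, c2 v ≠ i) → ¬ IsStarColoring T c2 := by
    intro c2 i hi h
    obtain ⟨m, hm⟩ : ∃ m, k = m + 1 := ⟨k - 1, by have := i.isLt; omega⟩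
    subst hm
    exact hmin m (Nat.lt_succ_self m) (star_drop hT c2 i hi h)
  refine ⟨k, ⟨c, ?_, hc, ?_⟩, ?_, ?_⟩
  · intro i
    by_contra h
    push Not at h
    exact hdrop c i h hc
  · rintro c' ⟨i, h1, h2, h3⟩
    exact hdrop c' i (step_ne h1 h2) h3
  · rintro ⟨v⟩
    have := (c v).isLt
    omega
  · rintro ⟨u, v, huv⟩
    have h1 := hc.proper u v huv
    by_contra hk
    apply h1
    apply Fin.ext
    have := (c u).isLt
    have := (c v).isLt
    omega

/-! ### The coloring -/

section Tree

variable {T : SimpleGraph V} (hT : T.IsTree) (r : V)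

include hT

/-- A neighbour of a neighbour of the root. -/
theorem dist_two {b x : V} (hb : T.Adj r b) (hx : T.Adj b x) (hxr : x ≠ r) : T.dist r x = 2 := by
  have h1 := (dist_one r b).2 hb
  rcases near_or hT r hx with h | h
  · exfalso
    have h2 : T.dist r x = 0 := by omega
    have := (hT.connected r x).dist_eq_zero_iff.1 h2
    exact hxr this.symm
  · omega

theorem exists_par : ∃ par : V → V, ∀ v, v ≠ r → T.Adj (par v) v ∧
    T.dist r v = T.dist r (par v) + 1 := by
  classical
  have : ∀ v, ∃ u, v ≠ r → T.Adj u v ∧ T.dist r v = T.dist r u + 1 := by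
    intro v
    by_cases h : v = r
    · exact ⟨v, fun h' => absurd h h'⟩
    · obtain ⟨u, hu⟩ := exists_near hT r h
      exact ⟨u, fun _ => hu⟩
  choose par hpar using this
  exact ⟨par, hpar⟩

variable [Finite V]

omit hT in
theorem exists_extension {k : ℕ} (hk : 3 ≤ k) (base : V → Fin k) (par : V → V)
    (hpar : ∀ v, v ≠ r → T.Adj (par v) v ∧ T.dist r v = T.dist r (par v) + 1) :
    ∃ c : V → Fin k, (∀ v, T.dist r v < 3 → c v = base v) ∧
      ∀ v, 3 ≤ T.dist r v → c v ≠ c (par v) ∧ c v ≠ c (par (par v)) := by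
  classical
  have hne : ∀ v, 0 < T.dist r v → v ≠ r := by
    rintro v hv rfl
    simp at hv
  have step : ∀ n : ℕ, ∃ c : V → Fin k, (∀ v, T.dist r v < 3 → c v = base v) ∧
      ∀ v, 3 ≤ T.dist r v → T.dist r v ≤ n → c v ≠ c (par v) ∧ c v ≠ c (par (par v)) := by
    intro n
    induction n with
    | zero => exact ⟨base, fun _ _ => rfl, fun v h1 h2 => by omega⟩
    | succ n ih =>
      obtain ⟨c, h1, h2⟩ := ih
      have hF : ∀ v, ∃ j : Fin k, j ∉ ({c (par v), c (par (par v))} : Finset (Fin k)) :=
        fun v => exists_ne_of_card _ Finset.card_le_two (by omega)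
      choose F hF using hF
      refine ⟨fun v => if T.dist r v = n + 1 ∧ 3 ≤ n + 1 then F v else c v, ?_, ?_⟩
      · intro v hv
        have e0 : ¬ (T.dist r v = n + 1 ∧ 3 ≤ n + 1) := by omega
        simp only [if_neg e0]
        exact h1 v hv
      · intro v hv hvn
        have hd1 := (hpar v (hne v (by omega))).2
        have hd2 := (hpar (par v) (hne _ (by omega))).2
        have e1 : ¬ (T.dist r (par v) = n + 1 ∧ 3 ≤ n + 1) := by omega
        have e2 : ¬ (T.dist r (par (par v)) = n + 1 ∧ 3 ≤ n + 1) := by omega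
        simp only [if_neg e1, if_neg e2]
        by_cases h : T.dist r v = n + 1 ∧ 3 ≤ n + 1
        · rw [if_pos h]
          have := hF v
          simp only [Finset.mem_insert, Finset.mem_singleton, not_or] at this
          exact this
        · rw [if_neg h]
          exact h2 v hv (by omega)
  obtain ⟨N, hN⟩ := (Set.finite_range fun v => T.dist r v).bddAbove
  obtain ⟨c, h1, h2⟩ := step N
  exact ⟨c, h1, fun v hv => h2 v hv (hN ⟨v, rfl⟩)⟩

theorem lower (hk : 3 ≤ 1 + innerDegree T r + leafBit T r) :
    1 + innerDegree T r + leafBit T r ∈ minimalSizes T := by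
  classical
  let I : Set V := {w | T.Adj r w ∧ ∃ x, T.Adj w x ∧ x ≠ r}
  have hcard : Nat.card I = innerDegree T r := Nat.card_coe_set_eq I
  let eqv : I ≃ Fin (innerDegree T r) := Finite.equivFinOfCardEq hcard
  set d := innerDegree T r
  set t := leafBit T r with ht
  set k := 1 + d + t
  have hk0 : 0 < k := by omega
  let base : V → Fin k := fun v =>
    if h : v ∈ I then ⟨(eqv ⟨v, h⟩).val + 1, by have := (eqv ⟨v, h⟩).isLt; omega⟩
    else if T.Adj r v then ⟨k - 1, by omega⟩ else ⟨0, hk0⟩
  obtain ⟨par, hpar⟩ := exists_par hT r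
  obtain ⟨c, hc1, hc2⟩ := exists_extension r hk base par hpar
  -- values near the root
  have vr : (c r).val = 0 := by
    rw [hc1 r (by simp)]
    have h1 : r ∉ I := fun h => h.1.ne rfl
    have h2 : ¬ T.Adj r r := fun h => h.ne rfl
    simp only [base, dif_neg h1, if_neg h2]
  have vI : ∀ b (h : b ∈ I), (c b).val = (eqv ⟨b, h⟩).val + 1 := by
    intro b h
    have h1 := (dist_one r b).2 h.1
    rw [hc1 b (by omega)]
    simp only [base, dif_pos h]
  have vL : ∀ b, T.Adj r b → b ∉ I → (c b).val = d + 1 := by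
    intro b hb h
    have h1 := (dist_one r b).2 hb
    rw [hc1 b (by omega)]
    simp only [base, dif_neg h, if_pos hb]
    have h2 : t = 1 := if_pos ⟨b, hb, fun x hx => by
      by_contra hne
      exact h ⟨hb, x, hx, hne⟩⟩
    omega
  have vlt : ∀ b, b ∈ I → (c b).val ≤ d := by
    intro b h
    rw [vI b h]
    have := (eqv ⟨b, h⟩).isLt
    omega
  have vpos : ∀ b, T.Adj r b → 0 < (c b).val := by
    intro b hb
    by_cases h : b ∈ I
    · rw [vI b h]
      omega
    · rw [vL b hb h]
      omega
  have v2 : ∀ x, T.dist r x = 2 → (c x).val = 0 := by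
    intro x hx
    rw [hc1 x (by omega)]
    have h2 : ¬ T.Adj r x := by
      intro h
      rw [(dist_one r x).2 h] at hx
      omega
    have h1 : x ∉ I := fun h => h2 h.1
    simp only [base, dif_neg h1, if_neg h2]
  -- two neighbours of the root with the same color are equal if one of them is inner
  have vinj : ∀ a b, T.Adj r a → b ∈ I → c a = c b → a = b := by
    intro a b ha hb hab
    by_cases h : a ∈ I
    · have h1 := vI a h
      have h2 := vI b hb
      rw [hab, h2] at h1
      have h3 : eqv ⟨b, hb⟩ = eqv ⟨a, h⟩ := Fin.ext (by omega)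
      exact (congrArg Subtype.val (eqv.injective h3)).symm
    · exfalso
      have h1 := vL a ha h
      have h2 := vlt b hb
      rw [hab] at h1
      omega
  have hpar_eq : ∀ u v, T.Adj u v → T.dist r v = T.dist r u + 1 → par v = u := by
    intro u v huv hd
    have hvr : v ≠ r := by
      rintro rfl
      simp at hd
    obtain ⟨h1, h2⟩ := hpar v hvr
    exact near_unique hT r h1 huv h2 hd
  have proper' : ∀ u v, T.Adj u v → T.dist r v = T.dist r u + 1 → c u ≠ c v := by
    intro u v huv hd h
    have hval := congrArg Fin.val h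
    rcases Nat.lt_or_ge (T.dist r v) 3 with h3 | h3
    · rcases Nat.lt_or_ge (T.dist r v) 2 with h2 | h2
      · have hu0 : T.dist r u = 0 := by omega
        have hur := (hT.connected r u).dist_eq_zero_iff.1 hu0
        subst hur
        have := vpos v huv
        omega
      · have hv2 := v2 v (by omega)
        have := vpos u ((dist_one r u).1 (by omega))
        omega
    · have h4 := (hc2 v h3).1
      rw [hpar_eq u v huv hd] at h4
      exact h4 h.symm
  have proper : ∀ u v, T.Adj u v → c u ≠ c v := by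
    intro u v huv
    rcases near_or hT r huv with h | h
    · exact (proper' v u huv.symm h).symm
    · exact proper' u v huv h
  have path' : ∀ a b d e, T.Adj a b → T.Adj b d → T.Adj d e → a ≠ d → b ≠ e →
      T.dist r d = T.dist r b + 1 → ¬ (c a = c d ∧ c b = c e) := by
    rintro a b d e hab hbd hde had hbe hd ⟨h1, h2⟩
    have he : T.dist r e = T.dist r d + 1 := by
      rcases near_or hT r hde with h | h
      · exact absurd (near_unique hT r hbd hde.symm hd h) hbe
      · exact h
    rcases Nat.lt_or_ge (T.dist r e) 3 with h3 | h3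
    · have hb0 : T.dist r b = 0 := by omega
      have hbr := (hT.connected r b).dist_eq_zero_iff.1 hb0
      subst hbr
      exact had (vinj a d hab.symm ⟨hbd, e, hde, fun h => hbe h.symm⟩ h1)
    · have h4 := (hc2 e h3).2
      rw [hpar_eq d e hde he, hpar_eq b d hbd hd] at h4
      exact h4 h2.symm
  have hstar : IsStarColoring T c := by
    rw [star_iff hT.isAcyclic]
    refine ⟨proper, ?_⟩
    rintro a b d e hab hbd hde had hbe ⟨h1, h2⟩
    rcases near_or hT r hbd with h | h
    · exact path' e d b a hde.symm hbd.symm hab.symm (fun h' => hbe h'.symm)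
        (fun h' => had h'.symm) h ⟨h2.symm, h1.symm⟩
    · exact path' a b d e hab hbd hde had hbe h ⟨h1, h2⟩
  -- every color occurs on the root or on a neighbour of it
  have hocc : ∀ j : Fin k, j = c r ∨ ∃ b, T.Adj r b ∧ c b = j := by
    intro j
    rcases Nat.eq_zero_or_pos j.val with h | h
    · left
      exact Fin.ext (by omega)
    · right
      rcases Nat.lt_or_ge d j.val with h' | h'
      · have hj : j.val = d + 1 := by
          have := j.isLt
          have : t ≤ 1 := by
            rw [ht]
            unfold leafBit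
            split_ifs <;> omega
          omega
        have ht1 : leafBit T r ≠ 0 := by
          have := j.isLt
          omega
        have hex : ∃ w, T.Adj r w ∧ ∀ x, T.Adj w x → x = r := by
          by_contra hcon
          exact ht1 (if_neg hcon)
        obtain ⟨b, hb, hbx⟩ := hex
        have hbI : b ∉ I := by
          rintro ⟨-, x, hx, hxr⟩
          exact hxr (hbx x hx)
        exact ⟨b, hb, Fin.ext (by rw [vL b hb hbI, hj])⟩
      · let b := eqv.symm ⟨j.val - 1, by omega⟩
        refine ⟨b.1, b.2.1, Fin.ext ?_⟩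
        rw [vI b.1 b.2]
        have : eqv ⟨b.1, b.2⟩ = ⟨j.val - 1, by omega⟩ := eqv.apply_symm_apply _
        rw [this]
        simp only
        omega
  refine ⟨c, ?_, hstar, ?_⟩
  · intro j
    rcases hocc j with h | ⟨b, -, h⟩
    · exact ⟨r, h.symm⟩
    · exact ⟨b, h⟩
  · rintro c' ⟨i, h1, h2, h3⟩
    have hs := ((star_iff hT.isAcyclic c').1 h3).2
    by_cases hir : c r = i
    · apply h2 r hir
      rcases hocc (c' r) with h | ⟨b, hb, h⟩
      · exact ⟨r, Or.inl rfl, h.symm⟩
      · exact ⟨b, Or.inr hb, h⟩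
    · have hr' : c' r = c r := h1 r hir
      have hx0 : ∀ x, T.dist r x = 2 → c' x = c' r := by
        intro x hx
        have h4 : c x = c r := Fin.ext (by rw [v2 x hx, vr])
        rw [h1 x (by rw [h4]; exact hir), hr', h4]
      rcases hocc i with h | ⟨b, hb, hbi⟩
      · exact hir h.symm
      · have hj := h2 b hbi
        rcases hocc (c' b) with h | ⟨b', hb', hb'j⟩
        · exact hj ⟨r, Or.inr hb.symm, h.symm⟩
        · have hji : c' b ≠ i := step_ne h1 h2 b
          have hbb' : b ≠ b' := by
            rintro rfl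
            exact hji (hb'j.symm.trans hbi)
          have hc'b' : c' b' = c' b := by
            rw [h1 b' (by rw [hb'j]; exact hji), hb'j]
          by_cases hbI : b ∈ I
          · obtain ⟨x, hx, hxr⟩ := hbI.2
            exact hs x b r b' hx.symm hb.symm hb' hxr hbb'
              ⟨hx0 x (dist_two hT r hb hx hxr), hc'b'.symm⟩
          · have hb'I : b' ∈ I := by
              by_contra h
              apply hji
              rw [← hb'j, ← hbi]
              exact Fin.ext (by rw [vL b' hb' h, vL b hb hbI])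
            obtain ⟨x, hx, hxr⟩ := hb'I.2
            exact hs b r b' x hb.symm hb' hx hbb' (fun h => hxr h.symm)
              ⟨hc'b'.symm, (hx0 x (dist_two hT r hb' hx hxr)).symm⟩

end Tree

end Pool.Agent.Lib.MP_229293_co
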