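import Pool.Agent.Lib.MP_229293_co.Basic

/-!
# Upper bound for trees of radius at most two
-/

set_option autoImplicit false

open SimpleGraph

namespace Pool.Agent.Lib.MP_229293_co

variable {V : Type*}

theorem exists_ne_of_card {k m : ℕ} (s : Finset (Fin k)) (hs : s.card ≤ m) (hk : m < k) :
    ∃ j, j ∉ s := by
  by_contra hcon
  push Not at hcon
  have h1 : (Finset.univ : Finset (Fin k)) ⊆ s := fun j _ => hcon j
  have h2 := Finset.card_le_card h1
  rw [Finset.card_univ, Fintype.card_fin] at h2
  omega

/-- Star graphs: at most two colors. -/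
theorem le_two_of_center {T : SimpleGraph V} (hT : T.IsAcyclic) (s : V)
    (hs : ∀ u v, T.Adj u v → u = s ∨ v = s) {k : ℕ} (c : V → Fin k)
    (hc : IsStarColoring T c) (hmin : ∀ c', ¬ Step T c c') : k ≤ 2 := by
  classical
  by_contra hk
  obtain ⟨i, hi⟩ := exists_ne_of_card {c s} (Finset.card_singleton _).le (by omega : 1 < k)
  obtain ⟨j, hj⟩ := exists_ne_of_card {c s, i} Finset.card_le_two (by omega : 2 < k)
  simp only [Finset.mem_singleton] at hi
  simp only [Finset.mem_insert, Finset.mem_singleton, not_or] at hj
  refine hmin (fun v => if c v = i then j else c v) ⟨i, fun v hv => if_neg hv, ?_, ?_⟩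
  · rintro v hv ⟨u, hu, h⟩
    replace h := h.trans (if_pos hv)
    rcases hu with rfl | hu
    · exact hj.2 (h.symm.trans hv)
    · rcases hs v u hu with rfl | rfl
      · exact hi hv.symm
      · exact hj.1 h.symm
  · rw [star_iff hT]
    constructor
    · intro u v huv
      have h1 := hc.proper u v huv
      have hcs : c s ≠ i := fun h => hi h.symm
      rcases hs u v huv with rfl | rfl
      · rw [if_neg hcs]
        split_ifs with h
        · exact fun h' => hj.1 h'.symm
        · exact h1
      · rw [if_neg hcs]
        split_ifs with h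
        · exact hj.1
        · exact h1
    · intro a b d e hab hbd hde had hbe _
      rcases hs b d hbd with rfl | rfl
      · rcases hs d e hde with h | h
        · exact hbd.ne h.symm
        · exact hbe h.symm
      · rcases hs a b hab with h | h
        · exact had h
        · exact hbd.ne h

section Radius

variable {T : SimpleGraph V} (hT : T.IsTree) (r : V) (hr : ∀ v, T.dist r v ≤ 2)

include hT hr

/-- A vertex at distance two from the root is a leaf. -/
theorem far {v : V} (h0 : v ≠ r) (h1 : ¬ T.Adj r v) :
    ∃ b, T.Adj r b ∧ T.Adj b v ∧ ∀ x, T.Adj v x → x = b := by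
  obtain ⟨u, hu, hd⟩ := exists_near hT r h0
  have h2 := hr v
  have h3 : T.dist r u ≠ 0 := by
    intro h
    rw [h] at hd
    exact h1 ((dist_one r v).1 hd)
  have h4 : T.Adj r u := (dist_one r u).1 (by omega)
  refine ⟨u, h4, hu, fun x hx => ?_⟩
  rcases near_or hT r hx with h | h
  · exact near_unique hT r hx.symm hu h hd
  · have := hr x
    omega

/-- Star colorings of a tree of radius at most two. -/
theorem star_of {k : ℕ} (c : V → Fin k) (h1 : ∀ u v, T.Adj u v → c u ≠ c v)
    (h2 : ∀ b b' x, T.Adj r b → T.Adj r b' → b ≠ b' → T.Adj b x → x ≠ r →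
      ¬ (c x = c r ∧ c b = c b')) : IsStarColoring T c := by
  rw [star_iff hT.isAcyclic]
  refine ⟨h1, ?_⟩
  rintro a b d e hab hbd hde had hbe ⟨e1, e2⟩
  by_cases hb : b = r
  · subst hb
    exact h2 d a e hbd hab.symm had.symm hde (fun h => hbe h.symm) ⟨e2.symm, e1.symm⟩
  by_cases hd : d = r
  · subst hd
    exact h2 b e a hbd.symm hde hbe hab.symm had ⟨e1, e2⟩
  have hrb : T.Adj r b := by
    by_contra h
    obtain ⟨y, -, -, hy⟩ := far hT r hr hb h
    exact had ((hy a hab.symm).trans (hy d hbd).symm)
  have hrd : T.Adj r d := by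
    by_contra h
    obtain ⟨y, -, -, hy⟩ := far hT r hr hd h
    exact hbe ((hy b hbd.symm).trans (hy e hde).symm)
  have := hT.dist_ne_of_adj r hbd
  rw [(dist_one r b).2 hrb, (dist_one r d).2 hrd] at this
  exact this rfl

variable {k : ℕ} (c : V → Fin k) (hc : IsStarColoring T c) (hmin : ∀ c', ¬ Step T c c')

include hc hmin

/-- Two colors (not the color of the root) which occur only on leaves cannot both be present. -/
theorem merge (i j : Fin k) (hij : i ≠ j) (hi : i ≠ c r) (hj : j ≠ c r)
    (hl : ∀ b, T.Adj r b → c b = i ∨ c b = j → ∀ x, T.Adj b x → x = r) : False := by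
  classical
  have key : ∀ v, c v = i → ∀ u, T.Adj v u → c u ≠ j := by
    intro v hv u hvu huj
    by_cases h0 : v = r
    · subst h0
      exact hi hv.symm
    by_cases h1 : T.Adj r v
    · have := hl v h1 (Or.inl hv) u hvu
      subst this
      exact hj huj.symm
    · obtain ⟨b, hb, hbv, hu⟩ := far hT r hr h0 h1
      have hub := hu u hvu
      subst hub
      exact h0 (hl u hb (Or.inr huj) v hbv)
  refine hmin (fun v => if c v = i then j else c v) ⟨i, fun v hv => if_neg hv, ?_, ?_⟩
  · rintro v hv ⟨u, hu, h⟩
    replace h := h.trans (if_pos hv)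
    rcases hu with rfl | hu
    · exact hij (hv.symm.trans h)
    · exact key v hv u hu h
  · refine star_of hT r hr _ ?_ ?_
    · intro u v huv
      have h1 := hc.proper u v huv
      by_cases hu : c u = i
      · have hv : c v ≠ i := fun h => h1 (hu.trans h.symm)
        rw [if_pos hu, if_neg hv]
        exact fun h => key u hu v huv h.symm
      · by_cases hv : c v = i
        · rw [if_neg hu, if_pos hv]
          exact key v hv u huv.symm
        · rw [if_neg hu, if_neg hv]
          exact h1
    · rintro b b' x hb hb' hbb hbx hxr ⟨h1, h2⟩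
      have hbi : c b ≠ i := fun h => hxr (hl b hb (Or.inl h) x hbx)
      have hbj : c b ≠ j := fun h => hxr (hl b hb (Or.inr h) x hbx)
      rw [if_neg hbi] at h2
      have hb'i : c b' ≠ i := by
        intro h
        rw [if_pos h] at h2
        exact hbj h2
      rw [if_neg hb'i] at h2
      rw [if_neg hi.symm] at h1
      have hxi : c x ≠ i := by
        intro h
        rw [if_pos h] at h1
        exact hj h1
      rw [if_neg hxi] at h1
      exact ((star_iff hT.isAcyclic c).1 hc).2 x b r b' hbx.symm hb.symm hb' hxr hbb ⟨h1, h2⟩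

/-- With at least four colors every color other than that of the root occurs on a neighbour of the
root. -/
theorem occurs (hk : 4 ≤ k) (i : Fin k) (hi : i ≠ c r) : ∃ b, T.Adj r b ∧ c b = i := by
  classical
  by_contra hcon
  push Not at hcon
  have hex : ∀ v, ∃ j, c v = i → j ≠ i ∧ j ≠ c r ∧ ∀ x, T.Adj v x → c x ≠ j := by
    intro v
    by_cases hv : c v = i
    · have h0 : v ≠ r := by
        rintro rfl
        exact hi hv.symm
      have h1 : ¬ T.Adj r v := fun h => hcon v h hv
      obtain ⟨b, -, -, hu⟩ := far hT r hr h0 h1
      obtain ⟨j, hj⟩ := exists_ne_of_card {i, c r, c b} Finset.card_le_three (by omega : 3 < k)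
      simp only [Finset.mem_insert, Finset.mem_singleton, not_or] at hj
      refine ⟨j, fun _ => ⟨hj.1, hj.2.1, fun x hx => ?_⟩⟩
      rw [hu x hx]
      exact fun h => hj.2.2 h.symm
    · exact ⟨i, fun h => absurd h hv⟩
  choose f hf using hex
  refine hmin (fun v => if c v = i then f v else c v) ⟨i, fun v hv => if_neg hv, ?_, ?_⟩
  · rintro v hv ⟨u, hu, h⟩
    replace h := h.trans (if_pos hv)
    rcases hu with rfl | hu
    · exact (hf u hv).1 (h.symm.trans hv)
    · exact (hf v hv).2.2 u hu h
  · refine star_of hT r hr _ ?_ ?_
    · intro u v huv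
      have h1 := hc.proper u v huv
      by_cases hu : c u = i
      · have hv : c v ≠ i := fun h => h1 (hu.trans h.symm)
        rw [if_pos hu, if_neg hv]
        exact fun h => (hf u hu).2.2 v huv h.symm
      · by_cases hv : c v = i
        · rw [if_neg hu, if_pos hv]
          exact (hf v hv).2.2 u huv.symm
        · rw [if_neg hu, if_neg hv]
          exact h1
    · rintro b b' x hb hb' hbb hbx hxr ⟨h1, h2⟩
      rw [if_neg (hcon b hb), if_neg (hcon b' hb')] at h2
      rw [if_neg hi.symm] at h1
      have hxi : c x ≠ i := by
        intro h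
        rw [if_pos h] at h1
        exact (hf x h).2.1 h1
      rw [if_neg hxi] at h1
      exact ((star_iff hT.isAcyclic c).1 hc).2 x b r b' hbx.symm hb.symm hb' hxr hbb ⟨h1, h2⟩

theorem upper [Finite V] (hsurj : Function.Surjective c) :
    k ≤ 1 + innerDegree T r + leafBit T r := by
  classical
  have hfin : {w | T.Adj r w ∧ ∃ x, T.Adj w x ∧ x ≠ r}.Finite := Set.toFinite _
  rcases Nat.lt_or_ge k 4 with hk | hk
  · -- at most three colors
    by_contra hcon
    push Not at hcon
    by_cases hL : ∃ w, T.Adj r w ∧ ∀ x, T.Adj w x → x = r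
    · have hb : leafBit T r = 1 := if_pos hL
      have hin : innerDegree T r = 0 := by omega
      have hk3 : 3 ≤ k := by omega
      have hno : ∀ w, T.Adj r w → ∀ x, T.Adj w x → x = r := by
        intro w hw x hx
        by_contra hne
        unfold innerDegree at hin
        rw [Set.ncard_eq_zero hfin] at hin
        have : w ∈ {w | T.Adj r w ∧ ∃ x, T.Adj w x ∧ x ≠ r} := ⟨hw, x, hx, hne⟩
        rw [hin] at this
        exact this
      have := le_two_of_center hT.isAcyclic r (fun u v huv => by
        by_contra h
        push Not at h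
        have h1 : ¬ T.Adj r u := fun h1 => h.2 (hno u h1 v huv)
        obtain ⟨b, hb, hbu, -⟩ := far hT r hr h.1 h1
        exact h.1 (hno b hb u hbu)) c hc hmin
      omega
    · have hb : leafBit T r = 0 := if_neg hL
      push Not at hL
      have hall : ∀ w, T.Adj r w → w ∈ {w | T.Adj r w ∧ ∃ x, T.Adj w x ∧ x ≠ r} :=
        fun w hw => ⟨hw, hL w hw⟩
      rcases Nat.eq_zero_or_pos (innerDegree T r) with hin | hin
      · -- only the root
        have hne : ∀ v, v = r := by
          intro v
          by_contra h0
          have hw : ∃ w, T.Adj r w := by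
            by_cases h1 : T.Adj r v
            · exact ⟨v, h1⟩
            · obtain ⟨b, hb, -, -⟩ := far hT r hr h0 h1
              exact ⟨b, hb⟩
          obtain ⟨w, hw⟩ := hw
          unfold innerDegree at hin
          rw [Set.ncard_eq_zero hfin] at hin
          have := hall w hw
          rw [hin] at this
          exact this
        have hk1 : 2 ≤ k := by omega
        obtain ⟨u, hu⟩ := hsurj ⟨0, by omega⟩
        obtain ⟨v, hv⟩ := hsurj ⟨1, by omega⟩
        rw [hne u] at hu
        rw [hne v, hu] at hv
        exact absurd (congrArg Fin.val hv) (by simp)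
      · -- the root has exactly one neighbour
        have hin1 : innerDegree T r = 1 := by omega
        have hk3 : 3 ≤ k := by omega
        unfold innerDegree at hin1
        rw [Set.ncard_eq_one] at hin1
        obtain ⟨s, hs⟩ := hin1
        have hrs : ∀ w, T.Adj r w → w = s := by
          intro w hw
          have := hall w hw
          rw [hs] at this
          exact this
        have := le_two_of_center hT.isAcyclic s (fun u v huv => by
          by_contra h
          push Not at h
          by_cases hur : u = r
          · subst hur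
            exact h.2 (hrs v huv)
          · have h1 : ¬ T.Adj r u := fun h1 => h.1 (hrs u h1)
            obtain ⟨b, hb, -, hu⟩ := far hT r hr hur h1
            exact h.2 ((hu v huv).trans (hrs b hb))) c hc hmin
        omega
  · -- at least four colors
    -- the colors of the inner neighbours
    let A : Finset (Fin k) := Finset.univ.filter fun i =>
      ∃ b, T.Adj r b ∧ (∃ x, T.Adj b x ∧ x ≠ r) ∧ c b = i
    let L : Finset (Fin k) := Finset.univ.filter fun i => i ≠ c r ∧ i ∉ A
    have hA : A.card ≤ innerDegree T r := by
      have h1 : (A : Set (Fin k)) ⊆ c '' {w | T.Adj r w ∧ ∃ x, T.Adj w x ∧ x ≠ r} := by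
        intro i hi
        obtain ⟨b, h1, h2, h3⟩ := (Finset.mem_filter.1 (Finset.mem_coe.1 hi)).2
        exact ⟨b, ⟨h1, h2⟩, h3⟩
      calc A.card = (A : Set (Fin k)).ncard := (Set.ncard_coe_finset A).symm
        _ ≤ (c '' {w | T.Adj r w ∧ ∃ x, T.Adj w x ∧ x ≠ r}).ncard :=
            Set.ncard_le_ncard h1 (Set.toFinite _)
        _ ≤ _ := Set.ncard_image_le hfin
    have hLl : ∀ i ∈ L, ∀ b, T.Adj r b → c b = i → ∀ x, T.Adj b x → x = r := by
      intro i hi b hb hbi x hx
      by_contra hne
      exact (Finset.mem_filter.1 hi).2.2 (Finset.mem_filter.2 ⟨Finset.mem_univ _, b, hb,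
        ⟨x, hx, hne⟩, hbi⟩)
    have hL : L.card ≤ leafBit T r := by
      have h1 : L.card ≤ 1 := by
        rw [Finset.card_le_one]
        intro i hi j hj
        by_contra hij
        refine merge hT r hr c hc hmin i j hij (Finset.mem_filter.1 hi).2.1
          (Finset.mem_filter.1 hj).2.1 ?_
        rintro b hb (h | h)
        · exact hLl i hi b hb h
        · exact hLl j hj b hb h
      rcases Finset.eq_empty_or_nonempty L with h | ⟨i, hi⟩
      · rw [h, Finset.card_empty]
        exact Nat.zero_le _
      · obtain ⟨b, hb, hbi⟩ := occurs hT r hr c hc hmin hk i (Finset.mem_filter.1 hi).2.1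
        have : leafBit T r = 1 := if_pos ⟨b, hb, hLl i hi b hb hbi⟩
        omega
    have huniv : (Finset.univ : Finset (Fin k)) ⊆ insert (c r) (A ∪ L) := by
      intro i _
      simp only [Finset.mem_insert, Finset.mem_union]
      by_cases h : i = c r
      · exact Or.inl h
      · by_cases h' : i ∈ A
        · exact Or.inr (Or.inl h')
        · exact Or.inr (Or.inr (Finset.mem_filter.2 ⟨Finset.mem_univ _, h, h'⟩))
    have h1 := Finset.card_le_card huniv
    rw [Finset.card_univ, Fintype.card_fin] at h1
    have h2 := Finset.card_insert_le (c r) (A ∪ L)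
    have h3 := Finset.card_union_le A L
    omega

end Radius

end Pool.Agent.Lib.MP_229293_co
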